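import Pool.Agent.Q256.MP.Stm

/-!
# Project MP of helper256, job TRI: triangular systems have no common zero
-/

set_option autoImplicit false

namespace Pool.Agent.Q195.MP_TRI

open Pool.Agent.W276.GE Pool.Agent.W376.GE Pool.Agent.Q256.MP

variable {n d : ℕ}

/-- the diagonal entries -/
theorem AA_diag (hd : 1 ≤ d) (F : Fin n → E n d → ℤ) (α : E n (n * (d - 1) + 1)) :
    AA hd F α α = F (jj hd α) (pw d (jj hd α)) := by
  rw [AA, Matrix.of_apply]
  have hle : ∀ i, (gm hd α).1 i ≤ α.1 i := fun i => Nat.sub_le _ _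
  rw [sh, if_pos hle, co]
  have he : (fun i => α.1 i - (gm hd α).1 i) = (pw d (jj hd α)).1 := by
    funext i
    change α.1 i - (α.1 i - (Pi.single (jj hd α) d : Fin n → ℕ) i) =
      (Pi.single (jj hd α) d : Fin n → ℕ) i
    have h3 := jj_spec hd α
    by_cases hi : i = jj hd α
    · rw [hi, Pi.single_eq_same]
      omega
    · rw [Pi.single_eq_of_ne hi]
      omega
  rw [he, dif_pos (pw d (jj hd α)).2]

/-- the entries outside the diagonal -/
theorem AA_off {q : ℕ} (hd : 1 ≤ d) (F : Fin (n + 1) → E (n + 1) d → ℤ)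
    (h2 : ∀ j α, α ≠ pw d j → ((F j α : ℤ) : ZMod q) ≠ 0 → j ≠ 0 ∧ 1 ≤ α.1 0)
    (α β : E (n + 1) ((n + 1) * (d - 1) + 1)) (hαβ : α ≠ β)
    (h : ((AA hd F α β : ℤ) : ZMod q) ≠ 0) : α.1 0 < β.1 0 := by
  rw [AA, Matrix.of_apply, sh] at h
  split_ifs at h with hle
  · rw [co] at h
    split_ifs at h with hm
    · have hne : (⟨fun i => β.1 i - (gm hd α).1 i, hm⟩ : E (n + 1) d) ≠ pw d (jj hd α) := by
        intro he
        apply hαβ
        have he' := congrArg Subtype.val he
        simp only at he'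
        apply Subtype.ext
        funext i
        have h3 := congrFun he' i
        have h4 := hle i
        have h5 := jj_spec hd α
        change β.1 i - (α.1 i - (Pi.single (jj hd α) d : Fin (n + 1) → ℕ) i) =
          (Pi.single (jj hd α) d : Fin (n + 1) → ℕ) i at h3
        change α.1 i - (Pi.single (jj hd α) d : Fin (n + 1) → ℕ) i ≤ β.1 i at h4
        by_cases hi : i = jj hd α
        · rw [hi] at h3 h4 ⊢
          rw [Pi.single_eq_same] at h3 h4
          omega
        · rw [Pi.single_eq_of_ne hi] at h3 h4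
          omega
      obtain ⟨h6, h7⟩ := h2 _ _ hne h
      change 1 ≤ β.1 0 - (α.1 0 - (Pi.single (jj hd α) d : Fin (n + 1) → ℕ) 0) at h7
      rw [Pi.single_eq_of_ne (Ne.symm h6)] at h7
      omega
    · exact absurd Int.cast_zero h
  · exact absurd Int.cast_zero h

theorem tri : S_tri := by
  intro n d q hd hq F h1 h2 x hx
  have : Fact (1 < q) := ⟨by omega⟩
  have : Nontrivial (ZMod q) := ZMod.nontrivial q
  set M : Matrix (E (n + 1) ((n + 1) * (d - 1) + 1)) (E (n + 1) ((n + 1) * (d - 1) + 1)) (ZMod q) :=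
    (Int.castRingHom (ZMod q)).mapMatrix (AA hd F) with hM
  have hMe : ∀ α β, M α β = ((AA hd F α β : ℤ) : ZMod q) := fun α β => rfl
  have hdiag : ∀ α, M α α = -1 := by
    intro α
    rw [hMe, AA_diag]
    exact h1 _
  have hoff : ∀ α β, α ≠ β → ¬ α.1 0 < β.1 0 → M α β = 0 := by
    intro α β hαβ hlt
    by_contra hne
    rw [hMe] at hne
    exact hlt (AA_off hd F h2 α β hαβ hne)
  have htri : M.BlockTriangular (fun α => α.1 0) := by
    intro α β hlt
    apply hoff α β
    · rintro rfl
      exact lt_irrefl _ hlt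
    · exact not_lt.2 (le_of_lt hlt)
  have hblock : ∀ k : ℕ, (M.toSquareBlock (fun α => α.1 0) k) = -1 := by
    intro k
    ext α β
    rw [Matrix.toSquareBlock_def, Matrix.of_apply, Matrix.neg_apply]
    by_cases hαβ : α = β
    · subst hαβ
      rw [Matrix.one_apply_eq]
      exact hdiag _
    · rw [Matrix.one_apply_ne hαβ, neg_zero]
      apply hoff
      · exact fun h => hαβ (Subtype.ext h)
      · have h3 : α.1.1 0 = k := α.2
        have h4 : β.1.1 0 = k := β.2
        rw [h3, h4]
        exact lt_irrefl _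
  have hdetM : IsUnit M.det := by
    rw [htri.det]
    refine (IsUnit.prod_iff).2 fun k _ => ?_
    rw [hblock k, Matrix.det_neg, Matrix.det_one, mul_one]
    exact (isUnit_one.neg).pow _
  have hdet : (AA hd F).det ≠ 0 := by
    intro h
    have h3 : M.det = 0 := by
      rw [hM, ← RingHom.map_det, h, map_zero]
    rw [h3] at hdetM
    exact not_isUnit_zero hdetM
  have hdet' : ((Int.castRingHom ℂ).mapMatrix (AA hd F)).det ≠ 0 := by
    rw [← RingHom.map_det]
    simpa using hdet
  have hv : ((Int.castRingHom ℂ).mapMatrix (AA hd F)).mulVec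
      (fun β : E (n + 1) ((n + 1) * (d - 1) + 1) => ∏ i, x i ^ β.1 i) = 0 := by
    funext α
    rw [Matrix.mulVec, dotProduct]
    have h3 := ev_sh (t := (n + 1) * (d - 1) + 1) (show (n + 1) * (d - 1) + 1 - d + d = (n + 1) * (d - 1) + 1 by
      have := d_le hd α
      omega) (F (jj hd α)) (gm hd α) x
    rw [hx, mul_zero] at h3
    rw [Pi.zero_apply, ← h3]
    rfl
  have h0 := Matrix.eq_zero_of_mulVec_eq_zero hdet' hv
  funext i
  have h4 := congrFun h0 (pw ((n + 1) * (d - 1) + 1) i)
  simp only [Pi.zero_apply, pw_val] at h4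
  rw [Finset.prod_eq_zero_iff] at h4
  obtain ⟨k, -, hk⟩ := h4
  by_cases hki : k = i
  · subst hki
    rw [Pi.single_eq_same] at hk
    exact (pow_eq_zero_iff (by omega)).1 hk
  · rw [Pi.single_eq_of_ne hki, pow_zero] at hk
    exact absurd hk one_ne_zero

end Pool.Agent.Q195.MP_TRI
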